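import Pool.Agent.K6.H36.WH.Fin

/-!
# MP_5b99fd_an: the best constant in the weighted Hardy inequality with weight `(1+|x|²)^α`

For every `n ≥ 3` and every `α ≠ -(n-2)/2` the best constant `C(α,n)` is

* `2 n (α - 1)` for `α ≥ (n+2)/2`,
* `(n + 2 α - 2)² / 4` for `-(n+2)/2 ≤ α ≤ (n+2)/2`,
* `-4 α - 2 n` for `-n ≤ α ≤ -(n+2)/2`,
* `-2 α` for `α ≤ -n`.

The definitions `num`, `den`, `Adm` and `bestConst` are in `Pool.Agent.K6.H36.WH.Defs`.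
-/

set_option autoImplicit false

open Pool.Agent.K6.H36.WH

/-- The value of the best constant for all `n ≥ 3` and all `α ≠ -(n-2)/2`. -/
theorem Pool.Agent.Results.MP_5b99fd_an.BestConstant.result (n : ℕ) (hn : 3 ≤ n) (α : ℝ)
    (hα : α ≠ -((n - 2) / 2)) :
    (∃ u : EuclideanSpace ℝ (Fin n) → ℝ, Adm n α u) ∧
    (∀ u : EuclideanSpace ℝ (Fin n) → ℝ, Adm n α u → 0 < den α u) ∧
    (∀ c : ℝ, c ≤ bestConst n α ↔
      ∀ u : EuclideanSpace ℝ (Fin n) → ℝ, Adm n α u → c * den α u ≤ num α u) ∧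
    (((n : ℝ) + 2) / 2 ≤ α → bestConst n α = 2 * n * (α - 1)) ∧
    (-(((n : ℝ) + 2) / 2) ≤ α → α ≤ ((n : ℝ) + 2) / 2 →
      bestConst n α = ((n : ℝ) + 2 * α - 2) ^ 2 / 4) ∧
    (-(n : ℝ) ≤ α → α ≤ -(((n : ℝ) + 2) / 2) → bestConst n α = -4 * α - 2 * n) ∧
    (α ≤ -(n : ℝ) → bestConst n α = -2 * α) := by
  refine ⟨adm_exists (by omega) α, fun u hu => den_pos hu.1 hu.2.1 hu.2.2.1, fun c => ⟨?_, ?_⟩,
    best_value n hn α hα⟩
  · intro hc u hu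
    exact (mul_le_mul_of_nonneg_right hc (den_pos hu.1 hu.2.1 hu.2.2.1).le).trans (best_le hu)
  · exact fun h => le_best (by omega) h
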